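import Mathlib
import Pool.Agent.Helper40.CX.Good

namespace CX

/-!
# Counting embeddings inducing a given prime

Let `A` be a Dedekind domain with fraction field `L`, `F / L` finite, `K / L` finite Galois
containing `F`, `B` and `C` the integral closures of `A` in `F` and `K`. If all residue degrees
of primes of `C` over a maximal ideal `p` of `A` are one, and `Q` is a prime of `C` over `p`, then
the number of embeddings `F → K` over `L` which pull back `Q` to `P` is the ramification index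
of `P`.
-/

namespace VC

open Module Ideal
open scoped Pointwise

section

variable {A B C L F K : Type*} [CommRing A] [IsDedekindDomain A]
  [Field L] [Algebra A L] [IsFractionRing A L]
  [Field F] [Algebra L F] [FiniteDimensional L F]
  [Field K] [Algebra L K] [FiniteDimensional L K] [IsGalois L K]
  [Algebra F K] [IsScalarTower L F K]
  [Algebra A F] [IsScalarTower A L F] [Algebra A K] [IsScalarTower A L K] [IsScalarTower A F K]
  [CommRing B] [IsDedekindDomain B] [Algebra A B] [Algebra B F] [IsScalarTower A B F]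
  [IsFractionRing B F] [Module.Finite A B]
  [CommRing C] [IsDedekindDomain C] [Algebra A C] [Algebra C K] [IsScalarTower A C K]
  [IsFractionRing C K] [Module.Finite A C]
  [Algebra B C] [IsScalarTower A B C] [Algebra B K] [IsScalarTower B C K] [IsScalarTower B F K]
  [FaithfulSMul A C] [FaithfulSMul B C] [Module.Flat A C] [Module.Flat B C] [Module.Finite B C]
  [MulSemiringAction Gal(K/L) C] [IsGaloisGroup Gal(K/L) A C]

/-- orbit-stabilizer in the case of residue degree one -/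
lemma card_fiber_smul (p : Ideal A) [p.IsMaximal]
    (hf : ∀ Q' : Ideal C, Q'.IsPrime → Q'.LiesOver p → Q'.inertiaDeg A = 1)
    (Q Q' : Ideal C) [Q.IsPrime] [Q.LiesOver p] [Q'.IsPrime] [Q'.LiesOver p] :
    Nat.card {ρ : Gal(K/L) // ρ • Q = Q'} = Q'.ramificationIdx A := by
  obtain ⟨ρ₀, hρ₀⟩ := exists_smul_eq_of_isGaloisGroup p Q Q' Gal(K/L)
  have e1 : Nat.card {ρ : Gal(K/L) // ρ • Q = Q'} =
      Nat.card (MulAction.stabilizer Gal(K/L) Q) := by
    refine Nat.card_congr ⟨fun ρ => ⟨ρ₀⁻¹ * ρ.1, ?_⟩, fun σ => ⟨ρ₀ * σ.1, ?_⟩, ?_, ?_⟩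
    · rw [MulAction.mem_stabilizer_iff, mul_smul, ρ.2, ← hρ₀, inv_smul_smul]
    · rw [mul_smul, MulAction.mem_stabilizer_iff.mp σ.2, hρ₀]
    · intro ρ; simp
    · intro σ; simp
  rw [e1]
  have h1 := ncard_primesOver_mul_ramificationIdxIn_mul_inertiaDegIn p C Gal(K/L)
  have h2 := Nat.card_congr (MulAction.orbitProdStabilizerEquivGroup Gal(K/L) Q)
  rw [Nat.card_prod, Algebra.IsInvariant.orbit_eq_primesOver A C Gal(K/L) p Q] at h2
  rw [inertiaDegIn_eq_inertiaDeg p Q' Gal(K/L), hf Q' inferInstance inferInstance, mul_one,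
    ramificationIdxIn_eq_ramificationIdx p Q' Gal(K/L), ← h2] at h1
  have h3 : (primesOver p C).ncard ≠ 0 := by
    intro h0
    have h4 : Nat.card Gal(K/L) ≠ 0 := Nat.card_pos.ne'
    apply h4
    rw [← h2, ← h1, h0, zero_mul]
  exact (Nat.eq_of_mul_eq_mul_left (Nat.pos_of_ne_zero h3) h1).symm

/-- the number of elements of the Galois group moving `Q` to a prime over `P` -/
lemma card_under (p : Ideal A) [p.IsMaximal]
    (hf : ∀ Q' : Ideal C, Q'.IsPrime → Q'.LiesOver p → Q'.inertiaDeg A = 1)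
    (Q : Ideal C) [Q.IsPrime] [Q.LiesOver p] (P : Ideal B) [P.IsPrime] [P.LiesOver p] :
    Nat.card {ρ : Gal(K/L) // (ρ • Q).under B = P} =
      P.ramificationIdx A * Module.finrank B C := by
  classical
  have hfin : Finite (P.primesOver C) := Algebra.QuasiFinite.finite_primesOver P
  have : Fintype (P.primesOver C) := Fintype.ofFinite _
  have hLie : ∀ Q' : P.primesOver C, Q'.1.LiesOver p := by
    intro Q'
    have := Q'.2.2
    exact LiesOver.trans Q'.1 P p
  have e1 : Nat.card {ρ : Gal(K/L) // (ρ • Q).under B = P} =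
      ∑ Q' : P.primesOver C, Nat.card {ρ : Gal(K/L) // ρ • Q = Q'.1} := by
    rw [← Nat.card_sigma]
    refine Nat.card_congr ⟨fun ρ => ⟨⟨ρ.1 • Q, inferInstance, ⟨ρ.2.symm⟩⟩, ⟨ρ.1, rfl⟩⟩,
      fun x => ⟨x.2.1, ?_⟩, ?_, ?_⟩
    · have h1 := x.2.2
      have h2 := x.1.2.2
      rw [h1]
      exact (over_def x.1.1 P).symm
    · intro ρ; rfl
    · rintro ⟨⟨Q', hQ'⟩, ⟨ρ, hρ⟩⟩
      simp only at hρ
      subst hρ
      rfl
  rw [e1]
  have e2 : ∀ Q' : P.primesOver C, Nat.card {ρ : Gal(K/L) // ρ • Q = Q'.1} =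
      P.ramificationIdx A * (Q'.1.ramificationIdx B * Q'.1.inertiaDeg B) := by
    intro Q'
    have h1 := Q'.2.1
    have h2 := Q'.2.2
    have h3 := hLie Q'
    rw [card_fiber_smul p hf Q Q'.1, ramificationIdx_tower P Q'.1]
    have h4 := inertiaDeg_tower (R := A) P Q'.1
    rw [hf Q'.1 h1 h3] at h4
    rw [Nat.eq_one_of_mul_eq_one_left h4.symm, mul_one]
  rw [Finset.sum_congr rfl (fun Q' _ => e2 Q'), ← Finset.mul_sum,
    sum_ramification_inertia_eq_finrank]

omit [FiniteDimensional L F] in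
lemma card_fibre_restrict (φ : F →ₐ[L] K) :
    Nat.card {ρ : Gal(K/L) // ∀ x : F, ρ⁻¹ (algebraMap F K x) = φ x} =
      Module.finrank F K := by
  have : IsGalois F K := IsGalois.tower_top_of_isGalois L F K
  have : FiniteDimensional F K := Module.Finite.of_restrictScalars_finite L F K
  rw [← IsGalois.card_aut_eq_finrank F K]
  -- an extension of φ
  let ψ : K →ₐ[L] K := φ.liftNormal K
  have hψ : ∀ x : F, ψ (algebraMap F K x) = φ x := fun x => φ.liftNormal_commutes K x
  let ρ₀ : Gal(K/L) := AlgEquiv.ofBijective ψ (AlgHom.normal_bijective L K K ψ)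
  have hρ₀ : ∀ x : F, ρ₀ (algebraMap F K x) = φ x := hψ
  refine Nat.card_congr ⟨fun ρ => AlgEquiv.ofRingEquiv (f := ((ρ₀⁻¹ * ρ.1⁻¹ : Gal(K/L)) : K ≃+* K))
    ?_, fun σ => ⟨(ρ₀ * σ.restrictScalars L)⁻¹, ?_⟩, ?_, ?_⟩
  · intro x
    change ρ₀⁻¹ (ρ.1⁻¹ (algebraMap F K x)) = algebraMap F K x
    rw [ρ.2 x, ← hρ₀ x]
    exact ρ₀.symm_apply_apply _
  · intro x
    rw [inv_inv]
    change ρ₀ (σ (algebraMap F K x)) = φ x
    rw [σ.commutes, hρ₀]
  · intro ρ
    apply Subtype.ext
    change (ρ₀ * _)⁻¹ = ρ.1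
    rw [inv_eq_iff_eq_inv]
    ext x
    change ρ₀ (ρ₀⁻¹ (ρ.1⁻¹ x)) = ρ.1⁻¹ x
    exact ρ₀.apply_symm_apply _
  · intro σ
    ext x
    change ρ₀⁻¹ ((ρ₀ * σ.restrictScalars L)⁻¹⁻¹ x) = σ x
    rw [inv_inv]
    exact ρ₀.symm_apply_apply _

/-- **Counting embeddings**. -/
theorem card_embeddings (p : Ideal A) [p.IsMaximal]
    (hf : ∀ Q' : Ideal C, Q'.IsPrime → Q'.LiesOver p → Q'.inertiaDeg A = 1)
    (Q : Ideal C) [Q.IsPrime] [Q.LiesOver p] (P : Ideal B) [P.IsPrime] [P.LiesOver p]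
    (hcompat : ∀ (ρ : Gal(K/L)) (c : C), algebraMap C K (ρ • c) = ρ (algebraMap C K c)) :
    Nat.card {φ : F →ₐ[L] K // ∀ b : B, b ∈ P ↔ ∃ c ∈ Q, algebraMap C K c =
      φ (algebraMap B F b)} = P.ramificationIdx A := by
  classical
  let r : Gal(K/L) → (F →ₐ[L] K) := fun ρ =>
    (AlgEquiv.toAlgHom (ρ⁻¹ : Gal(K/L))).comp (IsScalarTower.toAlgHom L F K)
  have hr : ∀ ρ : Gal(K/L), ∀ x : F, r ρ x = ρ⁻¹ (algebraMap F K x) := fun ρ x => rfl
  have hcond : ∀ ρ : Gal(K/L), ((ρ • Q).under B = P) ↔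
      (∀ b : B, b ∈ P ↔ ∃ c ∈ Q, algebraMap C K c = r ρ (algebraMap B F b)) := by
    intro ρ
    have h1 : ∀ b : B, b ∈ (ρ • Q).under B ↔ ∃ c ∈ Q, algebraMap C K c =
        r ρ (algebraMap B F b) := by
      intro b
      rw [under_def, mem_comap, Ideal.mem_pointwise_smul_iff_inv_smul_mem]
      constructor
      · intro h
        refine ⟨_, h, ?_⟩
        rw [hcompat, hr, ← IsScalarTower.algebraMap_apply B C K,
          ← IsScalarTower.algebraMap_apply B F K]
      · rintro ⟨c, hc, hc'⟩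
        have : c = ρ⁻¹ • algebraMap B C b := by
          apply IsFractionRing.injective C K
          rw [hc', hcompat, hr, ← IsScalarTower.algebraMap_apply B C K,
            ← IsScalarTower.algebraMap_apply B F K]
        rwa [← this]
    constructor
    · intro h b
      rw [← h1, h]
    · intro h
      ext b
      rw [h1, h]
  have hN := card_under (L := L) (K := K) p hf Q P
  have hfinG : Finite Gal(K/L) := inferInstance
  have hfinΦ : Finite (F →ₐ[L] K) := inferInstance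
  have e1 : Nat.card {ρ : Gal(K/L) // (ρ • Q).under B = P} =
      ∑ᶠ φ : {φ : F →ₐ[L] K // ∀ b : B, b ∈ P ↔ ∃ c ∈ Q, algebraMap C K c =
      φ (algebraMap B F b)}, Nat.card {ρ : Gal(K/L) // ∀ x : F, ρ⁻¹ (algebraMap F K x) = φ.1 x} := by
    have : Fintype {φ : F →ₐ[L] K // ∀ b : B, b ∈ P ↔ ∃ c ∈ Q, algebraMap C K c =
      φ (algebraMap B F b)} := Fintype.ofFinite _
    rw [finsum_eq_sum_of_fintype, ← Nat.card_sigma]
    refine Nat.card_congr ⟨fun ρ => ⟨⟨r ρ.1, (hcond ρ.1).mp ρ.2⟩, ⟨ρ.1, fun x => rfl⟩⟩,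
      fun x => ⟨x.2.1, ?_⟩, ?_, ?_⟩
    · rw [hcond]
      have : r x.2.1 = x.1.1 := by
        ext y; rw [hr]; exact x.2.2 y
      rw [this]
      exact x.1.2
    · intro ρ; rfl
    · rintro ⟨⟨φ, hφ⟩, ⟨ρ, hρ⟩⟩
      have : r ρ = φ := by
        ext y; rw [hr]; exact hρ y
      subst this
      rfl
  rw [hN] at e1
  simp only [card_fibre_restrict] at e1
  have : Fintype {φ : F →ₐ[L] K // ∀ b : B, b ∈ P ↔ ∃ c ∈ Q, algebraMap C K c =
      φ (algebraMap B F b)} := Fintype.ofFinite _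
  rw [finsum_eq_sum_of_fintype, Finset.sum_const, smul_eq_mul, Finset.card_univ,
    ← Nat.card_eq_fintype_card] at e1
  have h5 : Module.finrank B C = Module.finrank F K :=
    (IsFractionRing.finrank_eq B F C K).symm
  have h6 : 0 < Module.finrank F K := by
    have : FiniteDimensional F K := Module.Finite.of_restrictScalars_finite L F K
    exact Module.finrank_pos
  rw [h5] at e1
  exact (Nat.eq_of_mul_eq_mul_right h6 e1).symm

end

end VC

end CX
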