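import Mathlib
import Pool.Agent.Helper40.CX.Good

namespace CX

/-!
# Function fields, places, orders of functions

We use the classical dictionary between smooth projective curves over an algebraically closed
field `k` and function fields of one variable over `k`.
-/

namespace VC

/-- `F` is a function field of one variable over `k`: it contains an element `t` transcendental
over `k` such that `F` is a finite extension of `k(t)`. -/
def IsFunctionField (k F : Type*) [Field k] [Field F] [Algebra k F] : Prop :=
  ∃ t : F, Transcendental k t ∧ FiniteDimensional (IntermediateField.adjoin k {t}) F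

/-- A place of `F` over `k`: a valuation ring of `F`, different from `F`, containing `k`.
For a function field `F` of one variable these are the closed points of the smooth projective
curve with function field `F`; the valuation ring is the local ring at the point. -/
@[ext] structure Place (k F : Type*) [Field k] [Field F] [Algebra k F] where
  /-- the valuation ring -/
  ring : ValuationSubring F
  algebraMap_mem : ∀ a : k, algebraMap k F a ∈ ring
  ne_top : ring ≠ ⊤

/-- `π` is a uniformizer of the valuation ring `R`: a nonzero nonunit of `R` dividing all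
nonunits of `R`. -/
def IsUniformizer {F : Type*} [Field F] (R : ValuationSubring F) (π : F) : Prop :=
  π ≠ 0 ∧ π ∈ R.nonunits ∧ ∀ x ∈ R.nonunits, x / π ∈ R

/-- `f = u * π ^ n` with `π` a uniformizer and `u` a unit of the valuation ring `R`. -/
def HasOrd {F : Type*} [Field F] (R : ValuationSubring F) (f : F) (n : ℤ) : Prop :=
  ∃ π u : F, IsUniformizer R π ∧ u ∈ R ∧ u ∉ R.nonunits ∧ f = u * π ^ n

open Classical in
/-- The order of vanishing of `f` at the valuation ring `R`: the integer `n` such that
`f = u * π ^ n` with `π` a uniformizer and `u` a unit (and `0` if there is no such integer,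
which for places of function fields happens only for `f = 0`). -/
noncomputable def ord {F : Type*} [Field F] (R : ValuationSubring F) (f : F) : ℤ :=
  if h : ∃ n, HasOrd R f n then h.choose else 0

section General

open WithZero

variable {F : Type*} [Field F]

lemma mem_nonunits_of_valuation {R : ValuationSubring F} {w : Valuation F (WithZero (Multiplicative ℤ))}
    (hw : w.valuationSubring = R) (x : F) : x ∈ R.nonunits ↔ w x < 1 := by
  rw [ValuationSubring.mem_nonunits_iff_or, ← hw]
  constructor
  · rintro (rfl | h)
    · simp
    · rw [Valuation.mem_valuationSubring_iff, not_le, map_inv₀] at h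
      by_contra hcon
      push Not at hcon
      exact absurd h (not_lt.mpr (inv_le_one_of_one_le₀ hcon))
  · intro h
    by_cases hx : x = 0
    · exact Or.inl hx
    · right
      rw [Valuation.mem_valuationSubring_iff, not_le, map_inv₀]
      have h0 : w x ≠ 0 := (Valuation.ne_zero_iff w).mpr hx
      exact (one_lt_inv₀ (zero_lt_iff.mpr h0)).mpr h

lemma isUniformizer_iff {R : ValuationSubring F} {w : Valuation F (WithZero (Multiplicative ℤ))}
    (hw : w.valuationSubring = R) {π : F} (hπ : w π = exp (-1 : ℤ)) (π' : F) :
    IsUniformizer R π' ↔ w π' = exp (-1 : ℤ) := by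
  have hlt : ∀ x : WithZero (Multiplicative ℤ), x < 1 → x ≤ exp (-1 : ℤ) := by
    intro x hx
    by_cases h0 : x = 0
    · rw [h0]; exact zero_le
    · rw [← exp_log h0] at hx ⊢
      rw [← exp_zero, exp_lt_exp] at hx
      rw [exp_le_exp]
      omega
  have hm1 : exp (-1 : ℤ) < (1 : WithZero (Multiplicative ℤ)) := by
    rw [← exp_zero, exp_lt_exp]; norm_num
  constructor
  · rintro ⟨h0, h1, h2⟩
    rw [mem_nonunits_of_valuation hw] at h1
    have h3 := h2 π ((mem_nonunits_of_valuation hw π).mpr (by rw [hπ]; exact hm1))
    rw [← hw, Valuation.mem_valuationSubring_iff, map_div₀, hπ] at h3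
    have h4 : w π' ≠ 0 := (Valuation.ne_zero_iff w).mpr h0
    rw [div_le_one₀ (zero_lt_iff.mpr h4)] at h3
    exact le_antisymm (hlt _ h1) h3
  · intro h
    have h0 : π' ≠ 0 := by
      rintro rfl
      rw [map_zero] at h
      exact exp_ne_zero h.symm
    refine ⟨h0, ?_, ?_⟩
    · rw [mem_nonunits_of_valuation hw, h]; exact hm1
    · intro x hx
      rw [mem_nonunits_of_valuation hw] at hx
      rw [← hw, Valuation.mem_valuationSubring_iff, map_div₀, h,
        div_le_one₀ (zero_lt_iff.mpr exp_ne_zero)]
      exact hlt _ hx

lemma hasOrd_iff {R : ValuationSubring F} {w : Valuation F (WithZero (Multiplicative ℤ))}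
    (hw : w.valuationSubring = R) {π : F} (hπ : w π = exp (-1 : ℤ)) (f : F) (n : ℤ) :
    HasOrd R f n ↔ w f = exp (-n) := by
  have hpow : ∀ m : ℤ, (exp (-1 : ℤ) : WithZero (Multiplicative ℤ)) ^ m = exp (-m) := by
    intro m
    rw [← exp_zsmul]
    congr 1
    simp
  constructor
  · rintro ⟨π', u, h1, h2, h3, rfl⟩
    rw [isUniformizer_iff hw hπ] at h1
    rw [← hw, Valuation.mem_valuationSubring_iff] at h2
    rw [mem_nonunits_of_valuation hw, not_lt] at h3
    rw [map_mul, map_zpow₀, h1, le_antisymm h2 h3, one_mul, hpow]
  · intro h
    have hπ0 : π ≠ 0 := by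
      rintro rfl
      rw [map_zero] at hπ
      exact exp_ne_zero hπ.symm
    have hu : w (f / π ^ n) = 1 := by
      rw [map_div₀, map_zpow₀, hπ, hpow, h, div_self exp_ne_zero]
    refine ⟨π, f / π ^ n, (isUniformizer_iff hw hπ π).mpr hπ, ?_, ?_, ?_⟩
    · rw [← hw, Valuation.mem_valuationSubring_iff, hu]
    · rw [mem_nonunits_of_valuation hw, hu]; exact lt_irrefl _
    · rw [div_mul_cancel₀]
      exact zpow_ne_zero _ hπ0

lemma valuation_eq_exp_ord {R : ValuationSubring F} {w : Valuation F (WithZero (Multiplicative ℤ))}
    (hw : w.valuationSubring = R) {π : F} (hπ : w π = exp (-1 : ℤ)) {f : F} (hf : f ≠ 0) :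
    w f = exp (- ord R f) := by
  have h0 : w f ≠ 0 := (Valuation.ne_zero_iff w).mpr hf
  have hex : ∃ n, HasOrd R f n := by
    refine ⟨- log (w f), ?_⟩
    rw [hasOrd_iff hw hπ, neg_neg, exp_log h0]
  unfold ord
  rw [dif_pos hex]
  exact (hasOrd_iff hw hπ f _).mp hex.choose_spec

end General

end VC

end CX
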