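import Mathlib
import Pool.Agent.Helper40.CX.H26VC.Places
import Pool.Agent.Helper40.CX.Good

namespace CX

/-!
# Counting embeddings of function fields inducing a given place
-/

namespace VC

open Polynomial WithZero IsDedekindDomain

section inertia

variable {k K C : Type*} [Field k] [IsAlgClosed k] [CommRing C] [Algebra k[X] C]
  [Algebra.IsIntegral k[X] C]

lemma inertiaDeg_eq_one (Q : Ideal C) [Q.IsPrime] [Q.LiesOver (Ideal.span {(X : k[X])})] :
    Q.inertiaDeg k[X] = 1 := by
  set p : Ideal k[X] := Ideal.span {(X : k[X])} with hp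
  have hmax : p.IsMaximal := maxX
  have hQmax : Q.IsMaximal := by
    have : Algebra.IsIntegral (k[X] ⧸ p) (C ⧸ Q) := Ideal.Quotient.algebra_isIntegral_of_liesOver Q p
    exact Ideal.IsMaximal.of_liesOver_isMaximal Q p
  rw [Ideal.inertiaDeg_eq_of_isMaximal p Q]
  let f : k →+* (C ⧸ Q) := (algebraMap (k[X] ⧸ p) (C ⧸ Q)).comp
    ((Ideal.Quotient.mk p).comp (Polynomial.C : k →+* k[X]))
  have hsurj : Function.Surjective ((Ideal.Quotient.mk p).comp (Polynomial.C : k →+* k[X])) := by
    intro y
    obtain ⟨q, rfl⟩ := Ideal.Quotient.mk_surjective y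
    refine ⟨q.coeff 0, ?_⟩
    rw [RingHom.comp_apply, Ideal.Quotient.eq, hp, Ideal.mem_span_singleton, Polynomial.X_dvd_iff]
    simp
  let : Algebra k (C ⧸ Q) := f.toAlgebra
  have hint : Algebra.IsIntegral k (C ⧸ Q) := by
    have h1 : Algebra.IsIntegral (k[X] ⧸ p) (C ⧸ Q) :=
      Ideal.Quotient.algebra_isIntegral_of_liesOver Q p
    constructor
    exact RingHom.IsIntegral.trans _ _ (RingHom.isIntegral_of_surjective _ hsurj) h1.isIntegral
  have hbij := IsAlgClosed.algebraMap_bijective_of_isIntegral (k := k) (K := C ⧸ Q)
  have hbij2 : Function.Bijective (algebraMap (k[X] ⧸ p) (C ⧸ Q)) := by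
    constructor
    · exact FaithfulSMul.algebraMap_injective _ _
    · intro y
      obtain ⟨a, ha⟩ := hbij.2 y
      exact ⟨((Ideal.Quotient.mk p).comp (Polynomial.C : k →+* k[X])) a, ha⟩
  have e := LinearEquiv.ofBijective (Algebra.linearMap (k[X] ⧸ p) (C ⧸ Q)) hbij2
  rw [← e.finrank_eq, Module.finrank_self]

end inertia

lemma mem_nonunits_comap {F K : Type*} [Field F] [Field K] (φ : F →+* K) (R : ValuationSubring K)
    (x : F) : x ∈ (R.comap φ).nonunits ↔ φ x ∈ R.nonunits := by
  rw [ValuationSubring.mem_nonunits_iff_or, ValuationSubring.mem_nonunits_iff_or,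
    ValuationSubring.mem_comap, map_inv₀, map_eq_zero]

section N2

variable {k F K : Type*} [Field k] [IsAlgClosed k] [Good k]
  [Field F] [Algebra k F] [Algebra k[X] F] [IsScalarTower k k[X] F]
  [Algebra (RatFunc k) F] [IsScalarTower k[X] (RatFunc k) F] [FiniteDimensional (RatFunc k) F]
  [Field K] [Algebra k K] [Algebra k[X] K] [IsScalarTower k k[X] K]
  [Algebra (RatFunc k) K] [IsScalarTower k[X] (RatFunc k) K] [FiniteDimensional (RatFunc k) K]
  [Algebra F K] [IsScalarTower (RatFunc k) F K] [IsScalarTower k[X] F K] [IsGalois (RatFunc k) K]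

/-- The number of embeddings of `F` in the Galois extension `K` over `k(t)` pulling back a given
place `v` over `t = 0` to the place `P` is the order of `t` at `P`. -/
theorem card_embeddings_place (v : Place k K) (hv : OverZero v) (P : Place k F)
    (hP : OverZero P) :
    (Nat.card {φ : F →ₐ[RatFunc k] K // v.ring.comap φ.toRingHom = P.ring} : ℤ) =
      ord P.ring (algebraMap k[X] F X) := by
  have hsF : Algebra.IsSeparable (RatFunc k) F := Algebra.isSeparable_tower_bot_of_isSeparable (RatFunc k) F K
  set B := integralClosure k[X] F with hB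
  set C := integralClosure k[X] K with hC
  have hBd : IsDedekindDomain B := integralClosure.isDedekindDomain k[X] (RatFunc k) F
  have hCd : IsDedekindDomain C := integralClosure.isDedekindDomain k[X] (RatFunc k) K
  have hBf : IsFractionRing B F := integralClosure.isFractionRing_of_finite_extension (RatFunc k) F
  have hCf : IsFractionRing C K := integralClosure.isFractionRing_of_finite_extension (RatFunc k) K
  have hBfin : Module.Finite k[X] B := IsIntegralClosure.finite k[X] (RatFunc k) F B
  have hCfin : Module.Finite k[X] C := IsIntegralClosure.finite k[X] (RatFunc k) K C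
  let iBC : Algebra B C := (IsScalarTower.toAlgHom k[X] F K).mapIntegralClosure.toRingHom.toAlgebra
  have t1 : IsScalarTower k[X] B C := IsScalarTower.of_algebraMap_eq (fun x =>
    ((IsScalarTower.toAlgHom k[X] F K).mapIntegralClosure.commutes x).symm)
  have t2 : IsScalarTower B C K := IsScalarTower.of_algebraMap_eq (fun x => rfl)
  have f1 : FaithfulSMul k[X] B := by
    rw [faithfulSMul_iff_algebraMap_injective]
    intro x y hxy
    have h := congrArg (algebraMap B F) hxy
    rw [← IsScalarTower.algebraMap_apply, ← IsScalarTower.algebraMap_apply,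
      IsScalarTower.algebraMap_apply k[X] (RatFunc k) F,
      IsScalarTower.algebraMap_apply k[X] (RatFunc k) F] at h
    exact IsFractionRing.injective k[X] (RatFunc k) ((algebraMap (RatFunc k) F).injective h)
  have f2 : FaithfulSMul k[X] C := by
    rw [faithfulSMul_iff_algebraMap_injective]
    intro x y hxy
    have h := congrArg (algebraMap C K) hxy
    rw [← IsScalarTower.algebraMap_apply, ← IsScalarTower.algebraMap_apply,
      IsScalarTower.algebraMap_apply k[X] (RatFunc k) K,
      IsScalarTower.algebraMap_apply k[X] (RatFunc k) K] at h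
    exact IsFractionRing.injective k[X] (RatFunc k) ((algebraMap (RatFunc k) K).injective h)
  have f3 : FaithfulSMul B C := by
    rw [faithfulSMul_iff_algebraMap_injective]
    intro x y hxy
    have h := congrArg (algebraMap C K) hxy
    rw [← IsScalarTower.algebraMap_apply, ← IsScalarTower.algebraMap_apply,
      IsScalarTower.algebraMap_apply B F K,
      IsScalarTower.algebraMap_apply B F K] at h
    exact IsFractionRing.injective B F ((algebraMap F K).injective h)
  have hfinBC : Module.Finite B C := Module.Finite.of_restrictScalars_finite k[X] B C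
  have hG : IsGaloisGroup Gal(K/RatFunc k) k[X] C :=
    IsGaloisGroup.of_isFractionRing _ k[X] C (RatFunc k) K
  have key := card_embeddings (A := k[X]) (B := B) (C := C) (L := RatFunc k) (F := F) (K := K)
    (Ideal.span {(X : k[X])}) (fun Q' _ _ => inertiaDeg_eq_one Q') (center C v hv) (center B P hP)
    (fun ρ c => rfl)
  rw [ord_X B P hP, ← key]
  congr 1
  apply Nat.card_congr
  apply Equiv.subtypeEquivRight
  intro φ
  have hφX : ∀ p : k[X], φ (algebraMap k[X] F p) = algebraMap k[X] K p := by
    intro p
    rw [IsScalarTower.algebraMap_apply k[X] (RatFunc k) F, φ.commutes,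
      ← IsScalarTower.algebraMap_apply]
  have hφk : ∀ a : k, φ (algebraMap k F a) = algebraMap k K a := by
    intro a
    rw [IsScalarTower.algebraMap_apply k k[X] F, hφX, ← IsScalarTower.algebraMap_apply]
  have hcen : ∀ b : B, (∃ c ∈ center C v hv, algebraMap C K c = φ (algebraMap B F b)) ↔
      φ (algebraMap B F b) ∈ v.ring.nonunits := by
    intro b
    constructor
    · rintro ⟨c, hc, hc'⟩
      rw [← hc', ← mem_center C v hv]
      exact hc
    · intro h
      have hint : IsIntegral k[X] (φ (algebraMap B F b)) := by
        have h1 : IsIntegral k[X] (algebraMap B F b) := b.2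
        exact h1.map (φ.restrictScalars k[X])
      refine ⟨⟨_, hint⟩, ?_, rfl⟩
      rw [mem_center C v hv]
      exact h
  constructor
  · intro h b
    rw [hcen, mem_center B P hP, ← h, mem_nonunits_comap]
    rfl
  · intro h
    have hne : v.ring.comap φ.toRingHom ≠ ⊤ := by
      intro htop
      have h1 : (algebraMap k[X] F X)⁻¹ ∈ v.ring.comap φ.toRingHom := by
        rw [htop]; exact ValuationSubring.mem_top _
      rw [ValuationSubring.mem_comap, map_inv₀] at h1
      have h2 : φ.toRingHom (algebraMap k[X] F X) = algebraMap k[X] K X := hφX X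
      rw [h2] at h1
      rcases (ValuationSubring.mem_nonunits_iff_or _).mp hv with h3 | h3
      · have h4 : (X : k[X]) = 0 := by
          apply FaithfulSMul.algebraMap_injective k[X] C
          apply IsFractionRing.injective C K
          rw [← IsScalarTower.algebraMap_apply, h3, map_zero, map_zero]
        exact Polynomial.X_ne_zero h4
      · exact h3 h1
    let w : Place k F := ⟨v.ring.comap φ.toRingHom, by
      intro a
      rw [ValuationSubring.mem_comap]
      have : φ.toRingHom (algebraMap k F a) = algebraMap k K a := hφk a
      rw [this]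
      exact v.algebraMap_mem a, hne⟩
    have hw : OverZero w := by
      change _ ∈ (v.ring.comap φ.toRingHom).nonunits
      rw [mem_nonunits_comap]
      have : φ.toRingHom (algebraMap k[X] F X) = algebraMap k[X] K X := hφX X
      rw [this]
      exact hv
    have hcc : center B w hw = center B P hP := by
      ext b
      rw [h b, hcen, mem_center B w hw]
      change _ ∈ (v.ring.comap φ.toRingHom).nonunits ↔ _
      rw [mem_nonunits_comap]
      rfl
    have hwP := center_injective B w P hw hP hcc
    exact congrArg Place.ring hwP

end N2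

end VC

end CX
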