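import Mathlib
import Pool.Agent.Helper40.CX.H26VC.Main2
import Pool.Agent.Helper40.CX.Good

namespace CX

/-!
# General facts on places of function fields
-/

namespace VC

open Polynomial IntermediateField WithZero IsDedekindDomain

section alg

variable {k F : Type*} [Field k] [Field F] [Algebra k F]

lemma finiteDimensional_ratAlg (t : F) (ht : Transcendental k t)
    (hF : FiniteDimensional k⟮t⟯ F) : @FiniteDimensional (RatFunc k) F _ _ (ratAlg t ht).toModule := by
  let i3 : Algebra (RatFunc k) F := ratAlg t ht
  refine Module.Finite.of_equiv_equiv (RatFunc.algEquivOfTranscendental t ht).symm.toRingEquiv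
      (RingEquiv.refl F) ?_
  ext x
  change algebraMap k⟮t⟯ F (RatFunc.algEquivOfTranscendental t ht
    ((RatFunc.algEquivOfTranscendental t ht).symm x)) = algebraMap k⟮t⟯ F x
  rw [AlgEquiv.apply_symm_apply]

theorem IsFunctionField.finiteDimensional (h : IsFunctionField k F) {y : F}
    (hy : Transcendental k y) : FiniteDimensional k⟮y⟯ F := by
  obtain ⟨t, ht, hfin⟩ := h
  let i1 : Algebra k[X] F := polyAlg t
  let i3 : Algebra (RatFunc k) F := ratAlg t ht
  have s1 : IsScalarTower k k[X] F := IsScalarTower.of_algebraMap_eq (fun x =>
    (aeval t : k[X] →ₐ[k] F).commutes x |>.symm)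
  have s3 : IsScalarTower k[X] (RatFunc k) F := IsScalarTower.of_algebraMap_eq (fun x =>
    (ratAlg_poly t ht x).symm)
  have s7 : IsScalarTower k (RatFunc k) F := IsScalarTower.of_algebraMap_eq (fun x => by
    rw [IsScalarTower.algebraMap_apply k k[X] (RatFunc k), ← IsScalarTower.algebraMap_apply
      k[X] (RatFunc k) F, ← IsScalarTower.algebraMap_apply k k[X] F])
  have : FunctionField k F := finiteDimensional_ratAlg t ht hfin
  exact FunctionField.finiteDimensional_of_adjoin_transcendental hy

/-- An extension of function fields of one variable over the same `k` is finite. -/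
theorem finite_of_isFunctionField {K : Type*} [Field K] [Algebra k K] [Algebra F K]
    [IsScalarTower k F K] (hF : IsFunctionField k F) (hK : IsFunctionField k K) :
    Module.Finite F K := by
  obtain ⟨t, ht, hfin⟩ := hF
  have htK : Transcendental k (algebraMap F K t) :=
    (transcendental_algebraMap_iff (algebraMap F K).injective).mpr ht
  have hfinK := hK.finiteDimensional htK
  let i3 : Algebra (RatFunc k) F := ratAlg t ht
  let i4 : Algebra (RatFunc k) K := ratAlg (algebraMap F K t) htK
  have hfK : FiniteDimensional (RatFunc k) K := finiteDimensional_ratAlg _ htK hfinK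
  have s6 : IsScalarTower (RatFunc k) F K := by
    apply IsScalarTower.of_algebraMap_eq'
    apply IsFractionRing.ringHom_ext (A := k[X])
    intro x
    rw [RingHom.comp_apply]
    change (ratAlg (algebraMap F K t) htK).algebraMap (algebraMap k[X] (RatFunc k) x) =
      algebraMap F K ((ratAlg t ht).algebraMap (algebraMap k[X] (RatFunc k) x))
    rw [ratAlg_poly, ratAlg_poly, Polynomial.aeval_algebraMap_apply]
  exact Module.Finite.of_restrictScalars_finite (RatFunc k) F K

lemma comap_ne_top {K : Type*} [Field K] [Algebra k K] (hF : IsFunctionField k F)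
    (hK : IsFunctionField k K) (φ : F →ₐ[k] K) (R : ValuationSubring K) (hR : R ≠ ⊤) :
    R.comap φ.toRingHom ≠ ⊤ := by
  intro htop
  let i : Algebra F K := φ.toRingHom.toAlgebra
  have s : IsScalarTower k F K := IsScalarTower.of_algebraMap_eq (fun x => (φ.commutes x).symm)
  have hfin : Module.Finite F K := finite_of_isFunctionField hF hK
  apply hR
  rw [eq_top_iff]
  intro x _
  have hmem : ∀ y : F, φ.toRingHom y ∈ R := by
    intro y
    rw [← ValuationSubring.mem_comap, htop]
    exact ValuationSubring.mem_top y
  let f : F →+* R := φ.toRingHom.codRestrict R hmem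
  obtain ⟨p, hp, hp'⟩ := Algebra.IsIntegral.isIntegral (R := F) x
  have h1 : IsIntegral R x := by
    refine ⟨p.map f, hp.map f, ?_⟩
    rw [Polynomial.eval₂_map]
    exact hp'
  obtain ⟨y, hy⟩ := IsIntegrallyClosed.isIntegral_iff.mp h1
  rw [← hy]
  exact y.2

/-- The place below a place in an extension of function fields: the image of a point under the
morphism of curves given by an embedding of function fields. -/
def Place.comap {K : Type*} [Field K] [Algebra k K] (hF : IsFunctionField k F)
    (hK : IsFunctionField k K) (φ : F →ₐ[k] K) (v : Place k K) : Place k F where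
  ring := v.ring.comap φ.toRingHom
  algebraMap_mem := by
    intro a
    rw [ValuationSubring.mem_comap]
    have : φ.toRingHom (algebraMap k F a) = algebraMap k K a := φ.commutes a
    rw [this]
    exact v.algebraMap_mem a
  ne_top := comap_ne_top hF hK φ v.ring v.ne_top

end alg

section closed

variable {k F : Type*} [Field k] [IsAlgClosed k] [Field F] [Algebra k F]

lemma transcendental_of_mem_nonunits (P : Place k F) {t : F} (ht0 : t ≠ 0)
    (ht : t ∈ P.ring.nonunits) : Transcendental k t := by
  intro halg
  have hint : IsIntegral k t := halg.isIntegral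
  obtain ⟨b, hb⟩ : ∃ b : k, algebraMap k F b = t := by
    have hdeg := IsAlgClosed.degree_eq_one_of_irreducible k (minpoly.irreducible hint)
    exact (minpoly.mem_range_of_degree_eq_one k t hdeg)
  rcases (ValuationSubring.mem_nonunits_iff_or _).mp ht with h | h
  · exact ht0 h
  · apply h
    rw [← hb, ← map_inv₀]
    exact P.algebraMap_mem _

end closed

end VC

end CX
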