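import Mathlib
import Pool.Agent.Helper40.CX.H26VC.MainA

/-!
# Separating elements

Let `F` be a function field of one variable over an algebraically closed field. Every element of `F`
transcendental over `k` is of the form `s ^ n` with `F` separable over `k (s)`.
-/

namespace CX

namespace VC

open Polynomial IntermediateField

section

variable {k F : Type*} [Field k] [Field F] [Algebra k F]

lemma not_mem_adjoin_pow {u : F} (hu : Transcendental k u) {p : ℕ} (hp : 1 < p) :
    u ∉ k⟮u ^ p⟯ := by
  intro h
  rw [IntermediateField.mem_adjoin_simple_iff] at h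
  obtain ⟨r, s, h⟩ := h
  have hu0 : u ≠ 0 := by
    rintro rfl
    exact hu isAlgebraic_zero
  have hs0 : aeval (u ^ p) s ≠ 0 := by
    intro h0
    rw [h0, div_zero] at h
    exact hu0 h
  have hs : s ≠ 0 := by
    rintro rfl
    simp at hs0
  rw [eq_div_iff hs0] at h
  have e : ∀ q : k[X], aeval (u ^ p) q = aeval u (expand k p q) := by
    intro q
    rw [expand_aeval]
  have h1 : aeval u (X * expand k p s) = aeval u (expand k p r) := by
    rw [map_mul, aeval_X, ← e, ← e]
    exact h
  have h2 : X * expand k p s = expand k p r := by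
    have := transcendental_iff_injective.mp hu
    exact this h1
  have h3 := congrArg natDegree h2
  have hs' : expand k p s ≠ 0 := (expand_ne_zero (by omega)).mpr hs
  rw [natDegree_mul X_ne_zero hs', natDegree_X, natDegree_expand, natDegree_expand] at h3
  have h4 : (1 + s.natDegree * p) % p = (r.natDegree * p) % p := by rw [h3]
  rw [Nat.add_mul_mod_self_right, Nat.mul_mod_left, Nat.mod_eq_of_lt hp] at h4
  exact one_ne_zero h4

lemma essFiniteType (hF : IsFunctionField k F) : Algebra.EssFiniteType k F := by
  obtain ⟨t, ht, hfin⟩ := hF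
  have h1 : Algebra.EssFiniteType k k⟮t⟯ := by
    rw [IntermediateField.essFiniteType_iff]
    exact ⟨{t}, by simp⟩
  exact Algebra.EssFiniteType.comp k k⟮t⟯ F

end

section sep

variable {k F : Type*} [Field k] [IsAlgClosed k] [Field F] [Algebra k F]

/-- The field of `p`-th powers. -/
noncomputable def powField (k F : Type*) [Field k] [IsAlgClosed k] [Field F] [Algebra k F] (p : ℕ)
    [Fact p.Prime] [CharP k p] [CharP F p] : IntermediateField k F where
  toSubalgebra :=
    { (frobenius F p).fieldRange.toSubring.toSubsemiring with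
      algebraMap_mem' := by
        intro a
        obtain ⟨b, hb⟩ := IsAlgClosed.exists_pow_nat_eq a (Fact.out (p := p.Prime)).pos
        refine ⟨algebraMap k F b, ?_⟩
        rw [frobenius_def, ← map_pow, hb] }
  inv_mem' := by
    rintro _ ⟨x, rfl⟩
    exact ⟨x⁻¹, map_inv₀ _ _⟩

lemma mem_powField {p : ℕ} [Fact p.Prime] [CharP k p] [CharP F p] (x : F) :
    x ∈ powField k F p ↔ ∃ y : F, y ^ p = x := Iff.rfl

lemma card_sep_basis (hF : IsFunctionField k F) {s : Finset F}
    (hs : IsTranscendenceBasis k ((↑) : s → F)) : s.card = 1 := by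
  obtain ⟨t, ht, hfin⟩ := hF
  have h1 : IsTranscendenceBasis k (fun _ : Unit => t) := by
    have h2 : AlgebraicIndependent k (fun _ : Unit => t) := by
      rw [algebraicIndependent_unique_type_iff]
      exact ht
    rw [isTranscendenceBasis_iff_algebraicIndependent_isAlgebraic]
    refine ⟨h2, ?_⟩
    have h3 : Algebra.IsAlgebraic k⟮t⟯ F := inferInstance
    have h4 : Set.range (fun _ : Unit => t) = {t} := by simp
    rw [h4]
    exact IntermediateField.isAlgebraic_adjoin_iff_top.mp h3
  have h5 := h1.lift_cardinalMk_eq hs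
  simp only [Cardinal.mk_fintype, Fintype.card_unit, Fintype.card_coe, Nat.cast_one, Cardinal.lift_one,
    Cardinal.lift_natCast] at h5
  exact_mod_cast h5.symm

lemma sep_of_not_mem (hF : IsFunctionField k F) {p : ℕ} [hp : Fact p.Prime] [CharP k p] [CharP F p]
    {x : F} (hx : x ∉ powField k F p) : Algebra.IsSeparable k⟮x⟯ F := by
  classical
  have hess : Algebra.EssFiniteType k F := essFiniteType hF
  obtain ⟨s, hs, hsep⟩ := exists_isTranscendenceBasis_and_isSeparable_of_perfectField k F
  obtain ⟨s0, rfl⟩ := Finset.card_eq_one.mp (card_sep_basis hF hs)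
  set M := powField k F p with hM
  have hpow : ∀ y : F, y ^ p ∈ M := fun y => ⟨y, rfl⟩
  -- `F = M (s0)`
  have htop : M⟮s0⟯ = ⊤ := by
    rw [eq_top_iff]
    intro y _
    have h1 : y ∈ (k⟮s0⟯)⟮y ^ p⟯ := by
      have e0 : ((({s0} : Finset F)) : Set F) = {s0} := Finset.coe_singleton s0
      have hsep' : Algebra.IsSeparable k⟮s0⟯ F := by rw [e0] at hsep; exact hsep
      have : ExpChar k⟮s0⟯ p := by
        have : CharP k⟮s0⟯ p := charP_of_injective_algebraMap (algebraMap k k⟮s0⟯).injective p
        exact ExpChar.prime hp.out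
      rw [← IntermediateField.adjoin_simple_eq_adjoin_pow_expChar_of_isSeparable' k⟮s0⟯ F y p]
      exact IntermediateField.mem_adjoin_simple_self _ _
    have h2 : ((k⟮s0⟯)⟮y ^ p⟯).restrictScalars k ≤ (M⟮s0⟯).restrictScalars k := by
      rw [IntermediateField.restrictScalars_adjoin]
      rw [IntermediateField.adjoin_le_iff]
      rintro z (hz | hz)
      · have h3 : k⟮s0⟯ ≤ (M⟮s0⟯).restrictScalars k := by
          rw [IntermediateField.adjoin_simple_le_iff]
          exact IntermediateField.mem_adjoin_simple_self M s0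
        exact h3 hz
      · rw [Set.mem_singleton_iff] at hz
        subst hz
        exact (M⟮s0⟯).algebraMap_mem ⟨y ^ p, hpow y⟩
    exact h2 h1
  have hroot : ∀ y : F, aeval y (X ^ p - C (⟨y ^ p, hpow y⟩ : M)) = 0 := by
    intro y
    rw [map_sub, map_pow, aeval_X, aeval_C]
    exact sub_self _
  have hmonic : ∀ a : M, (X ^ p - C a).Monic := fun a => monic_X_pow_sub_C a hp.out.ne_zero
  have hint : ∀ y : F, IsIntegral M y := fun y => ⟨_, hmonic _, hroot y⟩
  have hle : Module.finrank M M⟮s0⟯ ≤ p := by
    rw [IntermediateField.adjoin.finrank (hint s0)]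
    refine (natDegree_le_of_dvd (minpoly.dvd M s0 (hroot s0)) (hmonic _).ne_zero).trans ?_
    rw [natDegree_X_pow_sub_C]
  have hxp : Module.finrank M M⟮x⟯ = p := by
    rw [IntermediateField.adjoin.finrank (hint x)]
    have hirr : Irreducible (X ^ p - C (⟨x ^ p, hpow x⟩ : M)) := by
      apply X_pow_sub_C_irreducible_of_prime hp.out
      intro b hb
      apply hx
      have h1 : (b : F) ^ p = x ^ p := congrArg Subtype.val hb
      have h2 : (b : F) = x := frobenius_inj F p h1
      rw [← h2]
      exact b.2
    rw [← minpoly.eq_of_irreducible_of_monic hirr (hroot x) (hmonic _), natDegree_X_pow_sub_C]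
  have hfd : FiniteDimensional M M⟮s0⟯ := IntermediateField.adjoin.finiteDimensional (hint s0)
  have hxtop : M⟮x⟯ = ⊤ := by
    rw [← htop]
    exact IntermediateField.eq_of_le_of_finrank_le (htop ▸ le_top) (by rw [hxp]; exact hle)
  -- the derivations
  have hess2 : Algebra.EssFiniteType k⟮x⟯ F := Algebra.EssFiniteType.of_comp k k⟮x⟯ F
  have hunr : Algebra.FormallyUnramified k⟮x⟯ F := by
    constructor
    have hD : ∀ y : F, KaehlerDifferential.D k⟮x⟯ F y = 0 := by
      intro y
      have hy : y ∈ M⟮x⟯ := by rw [hxtop]; exact IntermediateField.mem_top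
      induction hy using IntermediateField.adjoin_induction with
      | mem z hz =>
        rw [Set.mem_singleton_iff] at hz
        rw [hz]
        exact Derivation.map_algebraMap _ (⟨x, IntermediateField.mem_adjoin_simple_self k x⟩ : k⟮x⟯)
      | algebraMap a =>
        obtain ⟨z, hz⟩ := a.2
        have h1 : algebraMap M F a = z ^ p := hz.symm
        rw [h1, Derivation.leibniz_pow, ← Nat.cast_smul_eq_nsmul F, CharP.cast_eq_zero F p, zero_smul]
      | add y z _ _ hy hz => rw [map_add, hy, hz, add_zero]
      | inv y _ hy => rw [Derivation.leibniz_inv, hy, smul_zero]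
      | mul y z _ _ hy hz => rw [Derivation.leibniz, hy, hz, smul_zero, smul_zero, add_zero]
    have hspan := KaehlerDifferential.span_range_derivation k⟮x⟯ F
    have h2 : Submodule.span F (Set.range (KaehlerDifferential.D k⟮x⟯ F)) = ⊥ := by
      rw [Submodule.span_eq_bot]
      rintro _ ⟨y, rfl⟩
      exact hD y
    rw [h2] at hspan
    exact (Submodule.subsingleton_iff F).mp (subsingleton_of_bot_eq_top hspan)
  exact Algebra.FormallyUnramified.isSeparable k⟮x⟯ F

/-- Every transcendental element is a power of a separating element. -/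
theorem exists_sep (hF : IsFunctionField k F) {t : F} (ht : Transcendental k t) :
    ∃ (s : F) (n : ℕ), 0 < n ∧ s ^ n = t ∧ Transcendental k s ∧ Algebra.IsSeparable k⟮s⟯ F := by
  classical
  rcases CharP.exists' k with h0 | ⟨p, hp, hcp⟩
  · refine ⟨t, 1, one_pos, pow_one t, ht, ?_⟩
    have h1 : CharZero k⟮t⟯ := charZero_of_injective_algebraMap (algebraMap k k⟮t⟯).injective
    have h2 : FiniteDimensional k⟮t⟯ F := hF.finiteDimensional ht
    infer_instance
  have hcF : CharP F p := charP_of_injective_algebraMap (algebraMap k F).injective p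
  obtain ⟨d, hd⟩ : ∃ d, Module.finrank k⟮t⟯ F = d := ⟨_, rfl⟩
  induction d using Nat.strong_induction_on generalizing t with
  | _ d ih =>
    by_cases hmem : t ∈ powField k F p
    · obtain ⟨u, hu⟩ := hmem
      have hu' : u ^ p = t := hu
      have hutr : Transcendental k u := by
        intro h
        apply ht
        rw [← hu']
        exact h.pow p
      have hfd : FiniteDimensional k⟮t⟯ F := hF.finiteDimensional ht
      have hfdu : FiniteDimensional k⟮u⟯ F := hF.finiteDimensional hutr
      have hlt : k⟮t⟯ < k⟮u⟯ := by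
        rw [SetLike.lt_iff_le_and_exists]
        refine ⟨?_, u, IntermediateField.mem_adjoin_simple_self k u, ?_⟩
        · rw [IntermediateField.adjoin_simple_le_iff, ← hu']
          exact pow_mem (IntermediateField.mem_adjoin_simple_self k u) p
        · rw [← hu']
          exact not_mem_adjoin_pow hutr hp.out.one_lt
      have hlt2 : Module.finrank k⟮u⟯ F < d := by
        rw [← hd]
        exact IntermediateField.finrank_lt_of_gt hlt
      obtain ⟨s, n, hn, hs, hstr, hsep⟩ := ih _ hlt2 hutr rfl
      exact ⟨s, n * p, Nat.mul_pos hn hp.out.pos, by rw [pow_mul, hs, hu'], hstr, hsep⟩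
    · exact ⟨t, 1, one_pos, pow_one t, ht, sep_of_not_mem hF hmem⟩

end sep

end VC

end CX
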