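import Mathlib
import Pool.Agent.Helper40.CX.H26VC.Main2
import Pool.Agent.Helper40.CX.H26VC.Sep
import Pool.Agent.Helper40.CX.Good

namespace CX

/-!
# General facts on places of function fields
-/

namespace VC

open Polynomial IntermediateField WithZero IsDedekindDomain

section closed

variable {k F : Type*} [Field k] [IsAlgClosed k] [Field F] [Algebra k F]


lemma isSeparable_ratAlg {k F : Type*} [Field k] [Field F] [Algebra k F] (t : F) (ht : Transcendental k t)
    (hF : Algebra.IsSeparable k⟮t⟯ F) : @Algebra.IsSeparable (RatFunc k) F _ _ (ratAlg t ht) := by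
  let i3 : Algebra (RatFunc k) F := ratAlg t ht
  refine Algebra.IsSeparable.of_equiv_equiv (RatFunc.algEquivOfTranscendental t ht).symm.toRingEquiv
      (RingEquiv.refl F) ?_
  ext x
  change algebraMap k⟮t⟯ F (RatFunc.algEquivOfTranscendental t ht
    ((RatFunc.algEquivOfTranscendental t ht).symm x)) = algebraMap k⟮t⟯ F x
  rw [AlgEquiv.apply_symm_apply]

lemma pow_mem_nonunits {F : Type*} [Field F] (R : ValuationSubring F) {s : F} {n : ℕ} (hn : 0 < n) :
    s ^ n ∈ R.nonunits ↔ s ∈ R.nonunits := by
  rw [ValuationSubring.mem_nonunits_iff, ValuationSubring.mem_nonunits_iff, map_pow]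
  constructor
  · intro h
    by_contra hc
    exact absurd h (not_lt.mpr (one_le_pow_of_one_le' (not_lt.mp hc) n))
  · intro h
    exact pow_lt_one' h hn.ne'

/-- Every place of a function field comes from a discrete valuation. -/
theorem exists_valuation (hF : IsFunctionField k F) (P : Place k F) :
    ∃ w : Valuation F (WithZero (Multiplicative ℤ)), w.valuationSubring = P.ring ∧
      ∃ π, w π = exp (-1 : ℤ) := by
  obtain ⟨x, hx⟩ : ∃ x : F, x ∉ P.ring := by
    by_contra hcon
    push Not at hcon
    exact P.ne_top (eq_top_iff.mpr (fun x _ => hcon x))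
  have hx0 : x ≠ 0 := by
    rintro rfl
    exact hx P.ring.zero_mem
  set t := x⁻¹ with htdef
  have ht : t ∈ P.ring.nonunits := by
    rw [htdef, ValuationSubring.inv_mem_nonunits_iff]
    exact Or.inr hx
  have htr : Transcendental k t := transcendental_of_mem_nonunits P (inv_ne_zero hx0) ht
  obtain ⟨s, n, hn, hs, hstr, hsep⟩ := exists_sep hF htr
  have hts : s ∈ P.ring.nonunits := (pow_mem_nonunits _ hn).mp (by rw [hs]; exact ht)
  have hfin := hF.finiteDimensional hstr
  let i1 : Algebra k[X] F := polyAlg s
  let i3 : Algebra (RatFunc k) F := ratAlg s hstr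
  have s1 : IsScalarTower k k[X] F := IsScalarTower.of_algebraMap_eq (fun x =>
    (aeval s : k[X] →ₐ[k] F).commutes x |>.symm)
  have s3 : IsScalarTower k[X] (RatFunc k) F := IsScalarTower.of_algebraMap_eq (fun x =>
    (ratAlg_poly s hstr x).symm)
  have f1 : FiniteDimensional (RatFunc k) F := finiteDimensional_ratAlg s hstr hfin
  have hsepR : Algebra.IsSeparable (RatFunc k) F := isSeparable_ratAlg s hstr hsep
  have hBd : IsDedekindDomain (integralClosure k[X] F) :=
    integralClosure.isDedekindDomain k[X] (RatFunc k) F
  have hBf : IsFractionRing (integralClosure k[X] F) F :=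
    integralClosure.isFractionRing_of_finite_extension (RatFunc k) F
  have f1 : FaithfulSMul k[X] (integralClosure k[X] F) := by
    rw [faithfulSMul_iff_algebraMap_injective]
    intro x y hxy
    have h := congrArg (algebraMap (integralClosure k[X] F) F) hxy
    rw [← IsScalarTower.algebraMap_apply, ← IsScalarTower.algebraMap_apply,
      IsScalarTower.algebraMap_apply k[X] (RatFunc k) F,
      IsScalarTower.algebraMap_apply k[X] (RatFunc k) F] at h
    exact IsFractionRing.injective k[X] (RatFunc k) ((algebraMap (RatFunc k) F).injective h)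
  have hP : OverZero P := by
    unfold OverZero
    have : algebraMap k[X] F X = s := by
      change aeval s X = s
      simp
    rw [this]
    exact hts
  exact ⟨(hos (integralClosure k[X] F) P hP).valuation F,
    valuationSubring_hos (integralClosure k[X] F) P hP,
    (hos (integralClosure k[X] F) P hP).valuation_exists_uniformizer F⟩

lemma ord_nonneg_iff (hF : IsFunctionField k F) (P : Place k F) {f : F} (hf : f ≠ 0) :
    0 ≤ ord P.ring f ↔ f ∈ P.ring := by
  obtain ⟨w, hw, π, hπ⟩ := exists_valuation hF P
  rw [← hw, Valuation.mem_valuationSubring_iff, hw, valuation_eq_exp_ord hw hπ hf, ← exp_zero,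
    exp_le_exp]
  omega

lemma ord_pos_iff (hF : IsFunctionField k F) (P : Place k F) {f : F} (hf : f ≠ 0) :
    0 < ord P.ring f ↔ f ∈ P.ring.nonunits := by
  obtain ⟨w, hw, π, hπ⟩ := exists_valuation hF P
  rw [mem_nonunits_of_valuation hw, valuation_eq_exp_ord hw hπ hf, ← exp_zero, exp_lt_exp]
  omega

lemma ord_mul (hF : IsFunctionField k F) (P : Place k F) {f g : F} (hf : f ≠ 0) (hg : g ≠ 0) :
    ord P.ring (f * g) = ord P.ring f + ord P.ring g := by
  obtain ⟨w, hw, π, hπ⟩ := exists_valuation hF P
  have h := map_mul w f g
  rw [valuation_eq_exp_ord hw hπ hf, valuation_eq_exp_ord hw hπ hg,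
    valuation_eq_exp_ord hw hπ (mul_ne_zero hf hg), ← exp_add, exp_inj] at h
  omega

lemma ord_one (hF : IsFunctionField k F) (P : Place k F) : ord P.ring (1 : F) = 0 := by
  have h := ord_mul hF P (one_ne_zero (α := F)) (one_ne_zero (α := F))
  rw [mul_one] at h
  omega

lemma ord_inv (hF : IsFunctionField k F) (P : Place k F) {f : F} (hf : f ≠ 0) :
    ord P.ring f⁻¹ = - ord P.ring f := by
  have h := ord_mul hF P hf (inv_ne_zero hf)
  rw [mul_inv_cancel₀ hf, ord_one hF P] at h
  omega

lemma ord_algebraMap (hF : IsFunctionField k F) (P : Place k F) {a : k} (ha : a ≠ 0) :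
    ord P.ring (algebraMap k F a) = 0 := by
  have ha' : algebraMap k F a ≠ 0 := (_root_.map_ne_zero _).mpr ha
  have h1 := (ord_nonneg_iff hF P ha').mpr (P.algebraMap_mem a)
  have h2 := (ord_nonneg_iff hF P (f := (algebraMap k F a)⁻¹) (inv_ne_zero ha')).mpr (by
    rw [← map_inv₀]; exact P.algebraMap_mem _)
  rw [ord_inv hF P ha'] at h2
  omega

/-- A transcendental function has a zero. -/
theorem exists_place (hF : IsFunctionField k F) {t : F} (htr : Transcendental k t) :
    ∃ P : Place k F, t ∈ P.ring.nonunits := by
  obtain ⟨s, n, hn, hs, hstr, hsep⟩ := exists_sep hF htr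
  have hfin := hF.finiteDimensional hstr
  let i1 : Algebra k[X] F := polyAlg s
  let i3 : Algebra (RatFunc k) F := ratAlg s hstr
  have s1 : IsScalarTower k k[X] F := IsScalarTower.of_algebraMap_eq (fun x =>
    (aeval s : k[X] →ₐ[k] F).commutes x |>.symm)
  have s3 : IsScalarTower k[X] (RatFunc k) F := IsScalarTower.of_algebraMap_eq (fun x =>
    (ratAlg_poly s hstr x).symm)
  have f1 : FiniteDimensional (RatFunc k) F := finiteDimensional_ratAlg s hstr hfin
  have hsepR : Algebra.IsSeparable (RatFunc k) F := isSeparable_ratAlg s hstr hsep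
  have hBd : IsDedekindDomain (integralClosure k[X] F) :=
    integralClosure.isDedekindDomain k[X] (RatFunc k) F
  have hBf : IsFractionRing (integralClosure k[X] F) F :=
    integralClosure.isFractionRing_of_finite_extension (RatFunc k) F
  have f1 : FaithfulSMul k[X] (integralClosure k[X] F) := by
    rw [faithfulSMul_iff_algebraMap_injective]
    intro x y hxy
    have h := congrArg (algebraMap (integralClosure k[X] F) F) hxy
    rw [← IsScalarTower.algebraMap_apply, ← IsScalarTower.algebraMap_apply,
      IsScalarTower.algebraMap_apply k[X] (RatFunc k) F,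
      IsScalarTower.algebraMap_apply k[X] (RatFunc k) F] at h
    exact IsFractionRing.injective k[X] (RatFunc k) ((algebraMap (RatFunc k) F).injective h)
  have hX : algebraMap k[X] F X = s := by
    change aeval s X = s
    simp
  obtain ⟨Q, hQ⟩ : Nonempty ((Ideal.span {(X : k[X])}).primesOver (integralClosure k[X] F)) :=
    inferInstance
  have hQp := hQ.1
  have hQo := hQ.2
  have hXQ : algebraMap k[X] (integralClosure k[X] F) X ∈ Q := by
    have h1 : (X : k[X]) ∈ Q.under k[X] := by
      rw [← hQo.over]
      exact Ideal.mem_span_singleton_self _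
    exact h1
  have hXne : algebraMap k[X] (integralClosure k[X] F) X ≠ 0 := by
    intro h
    have h2 : (X : k[X]) = 0 := by
      apply FaithfulSMul.algebraMap_injective k[X] (integralClosure k[X] F)
      rw [h, map_zero]
    exact Polynomial.X_ne_zero h2
  let v : HeightOneSpectrum (integralClosure k[X] F) := ⟨Q, hQp, by
    rintro rfl
    exact hXne (Ideal.mem_bot.mp hXQ)⟩
  refine ⟨placeOfPrime (k := k) (F := F) (integralClosure k[X] F) v, ?_⟩
  have h := placeOfPrime_overZero (k := k) (F := F) (integralClosure k[X] F) v hXQ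
  unfold OverZero at h
  rw [hX] at h
  rw [← hs]
  exact (pow_mem_nonunits _ hn).mpr h

/-- A transcendental function has finitely many zeros. -/
theorem finite_zeros (hF : IsFunctionField k F) {t : F} (htr : Transcendental k t) :
    {P : Place k F | t ∈ P.ring.nonunits}.Finite := by
  obtain ⟨s, n, hn, hs, hstr, hsep⟩ := exists_sep hF htr
  have hfin := hF.finiteDimensional hstr
  let i1 : Algebra k[X] F := polyAlg s
  let i3 : Algebra (RatFunc k) F := ratAlg s hstr
  have s1 : IsScalarTower k k[X] F := IsScalarTower.of_algebraMap_eq (fun x =>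
    (aeval s : k[X] →ₐ[k] F).commutes x |>.symm)
  have s3 : IsScalarTower k[X] (RatFunc k) F := IsScalarTower.of_algebraMap_eq (fun x =>
    (ratAlg_poly s hstr x).symm)
  have f1 : FiniteDimensional (RatFunc k) F := finiteDimensional_ratAlg s hstr hfin
  have hsepR : Algebra.IsSeparable (RatFunc k) F := isSeparable_ratAlg s hstr hsep
  have hBd : IsDedekindDomain (integralClosure k[X] F) :=
    integralClosure.isDedekindDomain k[X] (RatFunc k) F
  have hBf : IsFractionRing (integralClosure k[X] F) F :=
    integralClosure.isFractionRing_of_finite_extension (RatFunc k) F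
  have hBfin : Module.Finite k[X] (integralClosure k[X] F) :=
    IsIntegralClosure.finite k[X] (RatFunc k) F (integralClosure k[X] F)
  have f1 : FaithfulSMul k[X] (integralClosure k[X] F) := by
    rw [faithfulSMul_iff_algebraMap_injective]
    intro x y hxy
    have h := congrArg (algebraMap (integralClosure k[X] F) F) hxy
    rw [← IsScalarTower.algebraMap_apply, ← IsScalarTower.algebraMap_apply,
      IsScalarTower.algebraMap_apply k[X] (RatFunc k) F,
      IsScalarTower.algebraMap_apply k[X] (RatFunc k) F] at h
    exact IsFractionRing.injective k[X] (RatFunc k) ((algebraMap (RatFunc k) F).injective h)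
  have hX : algebraMap k[X] F X = s := by
    change aeval s X = s
    simp
  have hov : ∀ P : Place k F, t ∈ P.ring.nonunits → OverZero P := by
    intro P hP
    unfold OverZero
    rw [hX]
    exact (pow_mem_nonunits _ hn).mp (by rw [hs]; exact hP)
  have hfinp : Finite ((Ideal.span {(X : k[X])}).primesOver (integralClosure k[X] F)) :=
    Algebra.QuasiFinite.finite_primesOver _
  rw [← Set.finite_coe_iff]
  let g : {P : Place k F | t ∈ P.ring.nonunits} →
      (Ideal.span {(X : k[X])}).primesOver (integralClosure k[X] F) :=
    fun P => ⟨center (integralClosure k[X] F) P.1 (hov P.1 P.2), inferInstance, inferInstance⟩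
  refine Finite.of_injective g ?_
  intro P P' h
  apply Subtype.ext
  apply center_injective (integralClosure k[X] F) P.1 P'.1 (hov P.1 P.2) (hov P'.1 P'.2)
  exact congrArg Subtype.val h

end closed

end VC

end CX
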