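import Mathlib
import Pool.Agent.Helper40.CX.H26VC.Move
import Pool.Agent.Helper40.CX.Good

namespace CX

/-!
# Zero-cycles with rational coefficients modulo rational equivalence
-/

namespace VC

open Function

universe u

variable {k : Type u} [Field k]

/-- The Chow group of zero-cycles with rational coefficients. -/
abbrev ChowQ (X : Variety k) := TensorProduct ℤ ℚ (X.Cycles ⧸ X.Rat)

/-- The class of a zero-cycle in the Chow group with rational coefficients. -/
noncomputable def cl (X : Variety k) : X.Cycles →ₗ[ℤ] ChowQ X :=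
  (TensorProduct.mk ℤ ℚ (X.Cycles ⧸ X.Rat) 1).comp (QuotientAddGroup.mk' X.Rat).toIntLinearMap

lemma cl_eq_zero_iff (X : Variety k) (z : X.Cycles) :
    cl X z = 0 ↔ ∃ m : ℕ, 0 < m ∧ m • z ∈ X.Rat := by
  have hloc : IsLocalizedModule (nonZeroDivisors ℤ)
      (TensorProduct.mk ℤ ℚ (X.Cycles ⧸ X.Rat) 1) :=
    (isLocalizedModule_iff_isBaseChange (nonZeroDivisors ℤ) ℚ _).mpr
      (TensorProduct.isBaseChange ℤ (X.Cycles ⧸ X.Rat) ℚ)
  have h1 : cl X z = 0 ↔ ∃ c : nonZeroDivisors ℤ, c • (QuotientAddGroup.mk' X.Rat z) = 0 :=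
    IsLocalizedModule.eq_zero_iff (nonZeroDivisors ℤ) (TensorProduct.mk ℤ ℚ (X.Cycles ⧸ X.Rat) 1)
  rw [h1]
  constructor
  · rintro ⟨⟨c, hc⟩, hc'⟩
    have hc0 : c ≠ 0 := nonZeroDivisors.ne_zero hc
    refine ⟨c.natAbs, Int.natAbs_pos.mpr hc0, ?_⟩
    have h2 : c • z ∈ X.Rat := by
      rw [← QuotientAddGroup.eq_zero_iff]
      exact hc'
    rcases Int.natAbs_eq c with h | h
    · rw [h] at h2
      rwa [natCast_zsmul] at h2
    · rw [h, neg_smul, natCast_zsmul] at h2
      exact (AddSubgroup.neg_mem_iff _).mp h2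
  · rintro ⟨m, hm, hm'⟩
    refine ⟨⟨(m : ℤ), mem_nonZeroDivisors_of_ne_zero (by exact_mod_cast hm.ne')⟩, ?_⟩
    have h2 : (m : ℤ) • z ∈ X.Rat := by rwa [natCast_zsmul]
    rw [← QuotientAddGroup.eq_zero_iff] at h2
    exact h2

lemma cl_eq_iff (X : Variety k) (z w : X.Cycles) :
    cl X z = cl X w ↔ ∃ m : ℕ, 0 < m ∧ m • (z - w) ∈ X.Rat := by
  rw [← cl_eq_zero_iff, map_sub, sub_eq_zero]

lemma cl_of_mem (X : Variety k) {z : X.Cycles} (hz : z ∈ X.Rat) : cl X z = 0 :=
  (cl_eq_zero_iff X z).mpr ⟨1, one_pos, by rwa [one_smul]⟩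

/-- The map on points is induced by a morphism. -/
def Induced (X Y : Variety k) (r : X.Pt → Y.Pt) : Prop :=
  ∀ (K : Type u) [Field K] [Algebra k K] (hK : IsFunctionField k K) (c : X.Mor K),
    ∃ c' : Y.Mor K, ∀ v, Y.eval hK c' v = r (X.eval hK c v)

variable [IsAlgClosed k] [Good k]

lemma map_rat (X Y : Variety k) (r : X.Pt → Y.Pt) (hr : Induced X Y r) {z : X.Cycles}
    (hz : z ∈ X.Rat) : Finsupp.mapDomain r z ∈ Y.Rat := by
  have h : X.Rat ≤ Y.Rat.comap (Finsupp.mapDomain.addMonoidHom r) := by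
    unfold Variety.Rat
    rw [AddSubgroup.closure_le]
    rintro z ⟨K, _, _, hK, c, f, hf, rfl⟩
    rw [SetLike.mem_coe, AddSubgroup.mem_comap]
    obtain ⟨c', hc'⟩ := hr K hK c
    apply AddSubgroup.subset_closure
    refine ⟨K, _, _, hK, c', f, hf, ?_⟩
    rw [AddMonoidHom.map_finsum]
    · apply finsum_congr
      intro v
      rw [hc']
      exact Finsupp.mapDomain_single
    · apply (finite_support_ord hK hf).subset
      intro v hv
      rw [Set.mem_ofPred_eq]
      intro h0
      apply hv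
      beta_reduce
      rw [h0, Finsupp.single_zero]
  exact h hz

lemma gen_mem (X : Variety k) {K : Type u} [Field K] [Algebra k K] (hK : IsFunctionField k K)
    (c : X.Mor K) {f : K} (hf : f ≠ 0) :
    ∑ v ∈ (finite_support_ord hK hf).toFinset, Finsupp.single (X.eval hK c v) (ord v.ring f) ∈
      X.Rat := by
  rw [← finsum_eq_sum_of_support_subset]
  · exact AddSubgroup.subset_closure ⟨K, _, _, hK, c, f, hf, rfl⟩
  · rw [Set.Finite.coe_toFinset]
    intro v hv
    rw [Set.mem_ofPred_eq]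
    intro h0
    apply hv
    beta_reduce
    rw [h0, Finsupp.single_zero]

/-- Symmetrized cycles supported at `g + 1` points can be moved so that one of the points is a
given point. -/
theorem move_sum {F : Type u} [Field F] [Algebra k F] (hF : IsFunctionField k F) (g : ℕ)
    (hg : ∀ D : Place k F →₀ ℤ,
      (D.sum fun _ m => m) + 1 ≤ (Module.finrank k (riemannRochSpace k F D) : ℤ) + g)
    {J : Type*} [Fintype J] [DecidableEq J] (hJ : Fintype.card J = g + 1)
    (X : Variety k) (ins : (J → Place k F) → X.Pt)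
    (hins : ∀ (K : Type u) [Field K] [Algebra k K] (hK : IsFunctionField k K)
      (z : J → (curve hF).Mor K), ∃ c : X.Mor K, ∀ v, X.eval hK c v =
        ins (fun j => (curve hF).eval hK (z j) v))
    (x : J → Place k F) (o : Place k F) :
    ∃ y : J → Place k F, (∃ j, y j = o) ∧
      cl X (∑ τ : Equiv.Perm J, Finsupp.single (ins (x ∘ τ)) 1) =
      cl X (∑ τ : Equiv.Perm J, Finsupp.single (ins (y ∘ τ)) 1) := by
  have hperm : ∀ (w : J → Place k F) (σ : Equiv.Perm J),
      ∑ τ : Equiv.Perm J, (Finsupp.single (ins ((w ∘ σ) ∘ τ)) 1 : X.Cycles) =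
      ∑ τ : Equiv.Perm J, Finsupp.single (ins (w ∘ τ)) 1 := by
    intro w σ
    refine Fintype.sum_equiv (Equiv.mulLeft σ) _ _ (fun τ => ?_)
    rfl
  obtain ⟨y, hy, h⟩ := move hF g hg (by rw [Nat.card_eq_fintype_card]; exact hJ) x o
  refine ⟨y, hy, ?_⟩
  rcases h with ⟨σ, hσ⟩ | ⟨K, _, _, hK, z, T, m, hT, hm, hpos, hneg, hsum1, hsum2⟩
  · rw [hσ, hperm]
  · rw [cl_eq_iff]
    refine ⟨m, hm, ?_⟩
    set s := (finite_support_ord hK hT).toFinset with hs
    choose c hc using fun τ : Equiv.Perm J => hins K hK (z ∘ τ)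
    have h1 : ∑ τ : Equiv.Perm J, ∑ v ∈ s, Finsupp.single (X.eval hK (c τ) v) (ord v.ring T) ∈
        X.Rat := AddSubgroup.sum_mem _ (fun τ _ => gen_mem X hK (c τ) hT)
    rw [Finset.sum_comm] at h1
    have h2 : ∀ v : Place k K, ∑ τ : Equiv.Perm J,
        (Finsupp.single (X.eval hK (c τ) v) (ord v.ring T) : X.Cycles) =
        max (ord v.ring T) 0 • ∑ τ : Equiv.Perm J, Finsupp.single (ins (x ∘ τ)) 1 -
        max (- ord v.ring T) 0 • ∑ τ : Equiv.Perm J, Finsupp.single (ins (y ∘ τ)) 1 := by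
      intro v
      have h3 : ∀ τ : Equiv.Perm J, (Finsupp.single (X.eval hK (c τ) v) (ord v.ring T) : X.Cycles) =
          ord v.ring T • Finsupp.single (ins ((fun j => (curve hF).eval hK (z j) v) ∘ τ)) 1 := by
        intro τ
        rw [hc, Finsupp.smul_single, smul_eq_mul, mul_one]
        rfl
      rw [Finset.sum_congr rfl (fun τ _ => h3 τ), ← Finset.smul_sum]
      rcases lt_trichotomy (ord v.ring T) 0 with hlt | heq | hgt
      · obtain ⟨σ, hσ⟩ := hneg v hlt
        rw [hσ, hperm, max_eq_right hlt.le, max_eq_left (by omega), zero_smul, zero_sub, neg_smul,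
          neg_neg]
      · rw [heq]
        simp
      · obtain ⟨σ, hσ⟩ := hpos v hgt
        rw [hσ, hperm, max_eq_left hgt.le, max_eq_right (by omega), zero_smul, sub_zero]
    rw [Finset.sum_congr rfl (fun v _ => h2 v), Finset.sum_sub_distrib, ← Finset.sum_smul,
      ← Finset.sum_smul] at h1
    have h4 : ∑ v ∈ s, max (ord v.ring T) 0 = (m : ℤ) := by
      rw [← hsum1, finsum_eq_sum_of_support_subset]
      rw [hs, Set.Finite.coe_toFinset]
      intro v hv
      rw [Set.mem_ofPred_eq]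
      intro h0
      apply hv
      beta_reduce
      rw [h0, max_self]
    have h5 : ∑ v ∈ s, max (- ord v.ring T) 0 = (m : ℤ) := by
      rw [← hsum2, finsum_eq_sum_of_support_subset]
      rw [hs, Set.Finite.coe_toFinset]
      intro v hv
      rw [Set.mem_ofPred_eq]
      intro h0
      apply hv
      beta_reduce
      rw [h0, neg_zero, max_self]
    rw [h4, h5, natCast_zsmul, natCast_zsmul, ← smul_sub] at h1
    exact h1

end VC

end CX
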